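import Pool.Agent.helper3.SP.SpecPP
import Pool.Agent.helper49.DP.BSYM

/-! # sp:PK1. Exploration inequality. -/

namespace TP

open DP MeasureTheory

/-- flip the coin at `z` -/
def PK1_T (z : V) (b : V → Bool) : V → Bool := Function.update b z (!(b z))

theorem PK1_T_T (z : V) (b : V → Bool) : PK1_T z (PK1_T z b) = b := by
  funext v
  unfold PK1_T
  by_cases h : v = z
  · subst h; simp
  · simp [h]

theorem PK1_meas (z : V) : Measurable (PK1_T z) := by
  refine measurable_pi_lambda _ fun v => ?_
  unfold PK1_T
  by_cases h : v = z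
  · subst h
    simp only [Function.update_self]
    exact (measurable_of_finite (fun a : Bool => !a)).comp (measurable_pi_apply v)
  · simp only [Function.update_of_ne h]
    exact measurable_pi_apply v

def PK1_E (z : V) : (V → Bool) ≃ᵐ (V → Bool) where
  toFun := PK1_T z
  invFun := PK1_T z
  left_inv := PK1_T_T z
  right_inv := PK1_T_T z
  measurable_toFun := PK1_meas z
  measurable_invFun := PK1_meas z

theorem PK1_map (z : V) : P1.map (PK1_E z) = P1 := by
  classical
  unfold P1
  have h2 := Measure.infinitePi_map_pi (fun _ : V => (PMF.uniformOfFintype Bool).toMeasure)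
    (f := fun v a => if v = z then !a else a) (fun _ => measurable_of_finite _)
  have h3 : ∀ v : V, ((PMF.uniformOfFintype Bool).toMeasure).map
      (fun a => if v = z then !a else a) = (PMF.uniformOfFintype Bool).toMeasure := by
    intro v
    by_cases h : v = z
    · simp only [h, if_true]
      exact BSYM_not
    · simp only [h, if_false]
      exact Measure.map_id
  simp only [h3] at h2
  have h4 : (fun (x : V → Bool) v => if v = z then !(x v) else x v) = ⇑(PK1_E z) := by
    funext x v
    show _ = PK1_T z x v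
    unfold PK1_T
    by_cases h : v = z
    · subst h; simp
    · simp [h]
  rw [h4] at h2
  exact h2

theorem PK1_pre (z : V) (E : Set (V → Bool)) : P1.real (PK1_T z ⁻¹' E) = P1.real E := by
  have h1 : P1.real E = (P1.map (PK1_E z)).real E := by rw [PK1_map]
  rw [h1, measureReal_def, measureReal_def, MeasurableEquiv.map_apply]
  rfl

instance PK1_prob : IsProbabilityMeasure P1 := by unfold P1; infer_instance

theorem PK1_coin (z : V) : MeasurableSet {b : V → Bool | b z = true} := by
  have h : MeasurableSet ((fun b : V → Bool => b z) ⁻¹' {true}) :=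
    measurable_pi_apply z (measurableSet_singleton true)
  exact h

theorem PK1_half (z : V) (F : Set (V → Bool)) (hF : ∀ b, PK1_T z b ∈ F ↔ b ∈ F) :
    P1.real (F ∩ {b | b z = true}) = P1.real F / 2 ∧
      P1.real (F \ {b | b z = true}) = P1.real F / 2 := by
  have h1 := measureReal_inter_add_sdiff (μ := P1) (s := F) (PK1_coin z)
  have h2 : PK1_T z ⁻¹' (F ∩ {b | b z = true}) = F \ {b | b z = true} := by
    ext b
    simp only [Set.mem_preimage, Set.mem_inter_iff, hF, Set.mem_sdiff]
    refine and_congr_right fun _ => ?_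
    show PK1_T z b z = true ↔ ¬ b z = true
    unfold PK1_T
    simp
  have h3 := PK1_pre z (F ∩ {b | b z = true})
  rw [h2] at h3
  constructor <;> linarith

theorem PK1_mx (z : V) (Λ : Finset V) (b b' : V → Bool) (k : Bool)
    (hk : b' z = k) : mx (insert z Λ : Finset V) b b' = mx (Λ : Set V) (Function.update b z k) b' := by
  classical
  funext w
  unfold mx
  by_cases h : w = z
  · subst h
    by_cases h2 : w ∈ (Λ : Set V)
    · simp [h2]
    · simp [h2, hk]
  · by_cases h2 : w ∈ (Λ : Set V)
    · simp [h2]
    · have h3 : w ∉ Λ := h2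
      simp [h3, h]

theorem PK1_split (z : V) (Λ : Finset V) (hz : z ∉ Λ) (b : V → Bool) (φ : (V → Bool) → Prop) :
    Pr {b' | φ (mx (insert z Λ : Finset V) b b')} =
      (Pr {b' | φ (mx (Λ : Set V) (Function.update b z true) b')} +
        Pr {b' | φ (mx (Λ : Set V) (Function.update b z false) b')}) / 2 := by
  classical
  have hinv : ∀ k : Bool, ∀ b', PK1_T z b' ∈ {b' | φ (mx (Λ : Set V) (Function.update b z k) b')} ↔
      b' ∈ {b' | φ (mx (Λ : Set V) (Function.update b z k) b')} := by
    intro k b'
    have h1 : mx (Λ : Set V) (Function.update b z k) (PK1_T z b') =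
        mx (Λ : Set V) (Function.update b z k) b' := by
      funext w
      unfold mx PK1_T
      by_cases h2 : w ∈ (Λ : Set V)
      · have h3 : w ≠ z := by
          rintro rfl
          exact hz h2
        simp [h2, h3]
      · simp [h2]
    show φ _ ↔ φ _
    rw [h1]
  have h1 := measureReal_inter_add_sdiff (μ := P1)
    (s := {b' | φ (mx (insert z Λ : Finset V) b b')}) (PK1_coin z)
  have h2 : {b' | φ (mx (insert z Λ : Finset V) b b')} ∩ {b' | b' z = true} =
      {b' | φ (mx (Λ : Set V) (Function.update b z true) b')} ∩ {b' | b' z = true} := by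
    ext b'
    constructor
    · rintro ⟨h3, h4⟩
      have h4' : b' z = true := h4
      refine ⟨?_, h4⟩
      show φ _
      rw [← PK1_mx z Λ b b' true h4']
      exact h3
    · rintro ⟨h3, h4⟩
      have h4' : b' z = true := h4
      refine ⟨?_, h4⟩
      show φ _
      rw [PK1_mx z Λ b b' true h4']
      exact h3
  have h5 : {b' | φ (mx (insert z Λ : Finset V) b b')} \ {b' | b' z = true} =
      {b' | φ (mx (Λ : Set V) (Function.update b z false) b')} \ {b' | b' z = true} := by
    ext b'
    constructor
    · rintro ⟨h3, h4⟩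
      have h4' : b' z = false := by
        have : ¬ b' z = true := h4
        simpa using this
      refine ⟨?_, h4⟩
      show φ _
      rw [← PK1_mx z Λ b b' false h4']
      exact h3
    · rintro ⟨h3, h4⟩
      have h4' : b' z = false := by
        have : ¬ b' z = true := h4
        simpa using this
      refine ⟨?_, h4⟩
      show φ _
      rw [PK1_mx z Λ b b' false h4']
      exact h3
  rw [h2, h5, (PK1_half z _ (hinv true)).1, (PK1_half z _ (hinv false)).2] at h1
  show P1.real _ = (P1.real _ + P1.real _) / 2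
  linarith

/-- the colouring with the bricks of `Z` white -/
def PK1_W (c : V → Bool) (Z : Finset V) : V → Bool := fun w => if br w ∈ Z then false else c w

/-- the part of `R` which is known to be white -/
def PK1_C (Λ : Finset V) (b : V → Bool) (R : Set V) : Set V :=
  {w | w ∈ R ∧ br w ∉ Λ ∧ col b w = false}

theorem PK1_con_mono {W W' : Set V} (h : W ⊆ W') {u v : V} (hc : Con W u v) : Con W' u v := by
  refine ⟨h hc.1, ?_⟩
  exact Relation.ReflTransGen.mono (r := fun a b => Adj a b ∧ b ∈ W)
    (p := fun a b => Adj a b ∧ b ∈ W') (fun a b hab => ⟨hab.1, h hab.2⟩) u v hc.2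

theorem PK1_con_trans {W : Set V} {u v w : V} (h : Con W u v) (h' : Con W v w) : Con W u w :=
  ⟨h.1, h.2.trans h'.2⟩

theorem PK1_con_mem {W : Set V} {u v : V} (h : Con W u v) : v ∈ W := by
  obtain ⟨h1, h2⟩ := h
  induction h2 with
  | refl => exact h1
  | tail _ h3 _ => exact h3.2

theorem PK1_con_tail {W : Set V} {u a w : V} (h : Con W u a) (h' : Adj a w) (hw : w ∈ W) :
    Con W u w := ⟨h.1, Relation.ReflTransGen.tail h.2 ⟨h', hw⟩⟩

theorem PK1_con_head {W : Set V} {x y v : V} (hx : x ∈ W) (h' : Adj x y) (h : Con W y v) :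
    Con W x v := ⟨hx, Relation.ReflTransGen.head (show Adj x y ∧ y ∈ W from ⟨h', h.1⟩) h.2⟩

theorem PK1_conn_mono {c c' : V → Bool} {R : Set V} (h : ∀ w ∈ R, c w = false → c' w = false) {u v : V}
    (hc : Conn c false R u v) : Conn c' false R u v :=
  PK1_con_mono (W := {w | w ∈ R ∧ c w = false}) (W' := {w | w ∈ R ∧ c' w = false})
    (fun w hw => ⟨hw.1, h w hw.1 hw.2⟩) hc

theorem PK1_br_even {z : V} (h : (z.1 + z.2) % 2 = 0) : br z = z := by
  unfold br
  rw [if_pos h]

theorem PK1_brick {w w' : V} (h : br w = br w') (hne : w ≠ w') : Adj w w' := by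
  obtain ⟨x, y⟩ := w
  obtain ⟨x', y'⟩ := w'
  unfold br at h
  simp only at h
  have h1 : y = y' := by
    split_ifs at h <;> simp_all
  subst h1
  have h2 : x' = x + 1 ∨ x = x' + 1 := by
    split_ifs at h with h3 h4 h4
    · exact absurd h hne
    · left
      have := congrArg Prod.fst h
      simp only at this
      omega
    · right
      have := congrArg Prod.fst h
      simp only at this
      omega
    · exfalso
      apply hne
      have := congrArg Prod.fst h
      simp only at this
      have h5 : x = x' := by omega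
      rw [h5]
  unfold Adj sd
  refine ⟨?_, Or.inr (Or.inl rfl)⟩
  rcases h2 with h2 | h2
  · subst h2
    simp
  · subst h2
    simp

/-- a white path for `PK1_W c Z` gives a white path for one recoloured brick -/
theorem PK1_last (c : V → Bool) (Z : Finset V) (R : Set V) (u v : V)
    (h : Conn (PK1_W c Z) false R u v) :
    Conn c false R u v ∨ ∃ z ∈ Z, ∃ w ∈ R, br w = z ∧
      Con {x | x ∈ R ∧ (br x = z ∨ c x = false)} w v := by
  have hv : v ∈ {w | w ∈ R ∧ PK1_W c Z w = false} := PK1_con_mem h
  obtain ⟨hu, hp⟩ := h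
  revert hu
  induction hp using Relation.ReflTransGen.head_induction_on with
  | refl =>
    intro hu
    by_cases hb : br v ∈ Z
    · right
      exact ⟨br v, hb, v, hu.1, rfl, ⟨hu.1, Or.inl rfl⟩, Relation.ReflTransGen.refl⟩
    · left
      have h1 : c v = false := by
        have := hu.2
        unfold PK1_W at this
        rwa [if_neg hb] at this
      exact ⟨⟨hu.1, h1⟩, Relation.ReflTransGen.refl⟩
  | @head x y hxy _ ih =>
    intro hx
    rcases ih hxy.2 with h1 | h1
    · by_cases hb : br x ∈ Z
      · right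
        refine ⟨br x, hb, x, hx.1, rfl, ?_⟩
        exact PK1_con_head ⟨hx.1, Or.inl rfl⟩ hxy.1
          (PK1_con_mono (W := {w | w ∈ R ∧ c w = false})
            (W' := {w | w ∈ R ∧ (br w = br x ∨ c w = false)}) (fun w hw => ⟨hw.1, Or.inr hw.2⟩) h1)
      · left
        have h2 : c x = false := by
          have := hx.2
          unfold PK1_W at this
          rwa [if_neg hb] at this
        exact PK1_con_head (show x ∈ {w | w ∈ R ∧ c w = false} from ⟨hx.1, h2⟩) hxy.1 h1
    · exact Or.inr h1

theorem PK1_col (Λ : Finset V) (b b' : V → Bool) (w : V) (h : br w ∉ Λ) :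
    col (mx (Λ : Set V) b b') w = col b w := by
  classical
  unfold col mx
  have : br w ∉ (Λ : Set V) := h
  rw [if_neg this]

theorem PK1_base (R : Set V) (u v : V) (Λ : Finset V) (b : V → Bool) (Z : Finset V)
    (hu : br u ∉ Λ) (hZev : ∀ z ∈ Z, (z.1 + z.2) % 2 = 0)
    (hZadj : ∀ z ∈ Z, ∃ w ∈ R, br w = z ∧ ∃ a, Con (PK1_C Λ b R) u a ∧ Adj a w)
    (hno : ∀ z ∈ Λ, ¬ ∃ w ∈ R, br w = z ∧ ∃ a, Con (PK1_C Λ b R) u a ∧ Adj a w) :
      Pr {b' | ¬ Conn (col (mx (Λ : Set V) b b')) false R u v} *
          Pr {b' | Conn (PK1_W (col (mx (Λ : Set V) b b')) Z) false R u v} ≤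
        Pr {b' | ¬ Conn (col (mx (Λ : Set V) b b')) false R u v ∧
          ∃ z ∈ Z ∪ Λ, Conn (rc (col (mx (Λ : Set V) b b')) z false) false R u v} := by
  classical
  have hnn : ∀ F : Set (V → Bool), 0 ≤ Pr F := fun F => measureReal_nonneg
  have hfin : ∀ F G : Set (V → Bool), F ⊆ G → Pr F ≤ Pr G := fun F G h =>
    measureReal_mono h (measure_ne_top _ _)
  -- from the known part to the random colouring
  have hA2 : ∀ (b' : V → Bool) (x : V), Con (PK1_C Λ b R) u x →
      Conn (col (mx (Λ : Set V) b b')) false R u x := by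
    intro b' x h
    refine PK1_con_mono ?_ h
    rintro w ⟨h1, h2, h3⟩
    refine ⟨h1, ?_⟩
    rw [PK1_col Λ b b' w h2]
    exact h3
  have hA1 : ∀ (b' : V → Bool) (x : V), Conn (col (mx (Λ : Set V) b b')) false R u x →
      Con (PK1_C Λ b R) u x := by
    intro b' x h
    obtain ⟨h1, h2⟩ := h
    induction h2 with
    | refl =>
      refine ⟨⟨h1.1, hu, ?_⟩, Relation.ReflTransGen.refl⟩
      rw [← PK1_col Λ b b' u hu]
      exact h1.2
    | @tail a w _ h3 ih =>
      refine PK1_con_tail ih h3.1 ⟨h3.2.1, ?_, ?_⟩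
      · intro h4
        exact hno (br w) h4 ⟨w, h3.2.1, rfl, a, ih, h3.1⟩
      · by_cases h4 : br w ∈ Λ
        · exact absurd ⟨w, h3.2.1, rfl, a, ih, h3.1⟩ (hno (br w) h4)
        · rw [← PK1_col Λ b b' w h4]
          exact h3.2.2
  by_cases hv : Con (PK1_C Λ b R) u v
  · have h1 : {b' | ¬ Conn (col (mx (Λ : Set V) b b')) false R u v} = ∅ := by
      ext b'
      simp only [Set.mem_empty_iff_false, iff_false]
      intro h
      exact h (hA2 b' v hv)
    rw [h1]
    have h2 : Pr (∅ : Set (V → Bool)) = 0 := measureReal_empty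
    rw [h2, zero_mul]
    exact hnn _
  · have h1 : ∀ b', ¬ Conn (col (mx (Λ : Set V) b b')) false R u v := fun b' h => hv (hA1 b' v h)
    have h2 : Pr {b' | ¬ Conn (col (mx (Λ : Set V) b b')) false R u v} ≤ 1 :=
      measureReal_le_one
    refine le_trans (mul_le_mul_of_nonneg_right h2 (hnn _)) ?_
    rw [one_mul]
    apply hfin
    intro b' hb'
    refine ⟨h1 b', ?_⟩
    rcases PK1_last _ Z R u v hb' with h3 | ⟨z, hz, w, hwR, hwz, hwv⟩
    · exact absurd h3 (h1 b')
    · refine ⟨z, Finset.mem_union_left _ hz, ?_⟩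
      obtain ⟨w0, hw0R, hw0z, a, hCa, haw0⟩ := hZadj z hz
      have hbz : br z = z := PK1_br_even (hZev z hz)
      have hrc : ∀ x, x ∈ R → (br x = z ∨ col (mx (Λ : Set V) b b') x = false) →
          x ∈ {x | x ∈ R ∧ rc (col (mx (Λ : Set V) b b')) z false x = false} := by
        intro x hx h
        refine ⟨hx, ?_⟩
        unfold rc
        rw [hbz]
        rcases h with h | h
        · rw [if_pos h]
        · rw [h]
          simp
      have c1 : Con {x | x ∈ R ∧ rc (col (mx (Λ : Set V) b b')) z false x = false} u a :=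
        PK1_con_mono (fun x hx => hrc x hx.1 (Or.inr hx.2)) (hA2 b' a hCa)
      have c2 := PK1_con_tail c1 haw0 (hrc w0 hw0R (Or.inl hw0z))
      have c3 : Con {x | x ∈ R ∧ rc (col (mx (Λ : Set V) b b')) z false x = false} w v :=
        PK1_con_mono (fun x hx => hrc x hx.1 hx.2) hwv
      by_cases hww : w0 = w
      · subst hww
        exact PK1_con_trans c2 c3
      · have c4 := PK1_con_tail c2 (PK1_brick (by rw [hw0z, hwz]) hww) (hrc w hwR (Or.inl hwz))
        exact PK1_con_trans c4 c3

theorem PK1_main (R : Set V) (u v : V) : ∀ (n : ℕ) (Λ : Finset V), Λ.card = n → ∀ (b : V → Bool)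
    (Z : Finset V), (∀ z ∈ Λ, (z.1 + z.2) % 2 = 0) → br u ∉ Λ → (∀ z ∈ Z, z ∉ Λ) →
    (∀ z ∈ Z, (z.1 + z.2) % 2 = 0) →
    (∀ z ∈ Z, ∃ w ∈ R, br w = z ∧ ∃ a, Con (PK1_C Λ b R) u a ∧ Adj a w) →
      Pr {b' | ¬ Conn (col (mx (Λ : Set V) b b')) false R u v} *
          Pr {b' | Conn (PK1_W (col (mx (Λ : Set V) b b')) Z) false R u v} ≤
        Pr {b' | ¬ Conn (col (mx (Λ : Set V) b b')) false R u v ∧
          ∃ z ∈ Z ∪ Λ, Conn (rc (col (mx (Λ : Set V) b b')) z false) false R u v} := by
  classical
  intro n
  induction n with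
  | zero =>
    intro Λ hΛ b Z hev hu hdis hZev hZadj
    exact PK1_base R u v Λ b Z hu hZev hZadj (by
      intro z hz
      rw [Finset.card_eq_zero] at hΛ
      rw [hΛ] at hz
      simp at hz)
  | succ n ih =>
    intro Λ hΛ b Z hev hu hdis hZev hZadj
    by_cases hcase : ∃ z ∈ Λ, ∃ w ∈ R, br w = z ∧ ∃ a, Con (PK1_C Λ b R) u a ∧ Adj a w
    swap
    · exact PK1_base R u v Λ b Z hu hZev hZadj (by
        intro z hz hc
        exact hcase ⟨z, hz, hc⟩)
    obtain ⟨z, hzΛ, w, hwR, hwz, a, hCa, haw⟩ := hcase
    set Λ' := Λ.erase z with hΛ'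
    have hins : insert z Λ' = Λ := Finset.insert_erase hzΛ
    have hz' : z ∉ Λ' := Finset.notMem_erase z Λ
    have hcard : Λ'.card = n := by
      rw [hΛ', Finset.card_erase_of_mem hzΛ, hΛ]
      rfl
    have hsub : ∀ x, x ∈ Λ' → x ∈ Λ := fun x hx => Finset.mem_of_mem_erase hx
    have hCmono : ∀ k : Bool, PK1_C Λ b R ⊆ PK1_C Λ' (Function.update b z k) R := by
      rintro k x ⟨h1, h2, h3⟩
      refine ⟨h1, fun h => h2 (hsub _ h), ?_⟩
      unfold col at h3 ⊢
      rw [Function.update_of_ne]
      · exact h3
      · rintro h4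
        rw [h4] at h2
        exact h2 hzΛ
    have ih1 := ih Λ' hcard (Function.update b z false) Z (fun x hx => hev x (hsub x hx))
      (fun h => hu (hsub _ h)) (fun x hx h => hdis x hx (hsub x h)) hZev (by
        intro x hx
        obtain ⟨y, hy, hyx, a', ha', ha'y⟩ := hZadj x hx
        exact ⟨y, hy, hyx, a', PK1_con_mono (hCmono false) ha', ha'y⟩)
    have ih0 := ih Λ' hcard (Function.update b z true) (insert z Z) (fun x hx => hev x (hsub x hx))
      (fun h => hu (hsub _ h)) (by
        intro x hx h
        rw [Finset.mem_insert] at hx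
        rcases hx with rfl | hx
        · exact hz' h
        · exact hdis x hx (hsub x h)) (by
        intro x hx
        rw [Finset.mem_insert] at hx
        rcases hx with rfl | hx
        · exact hev x hzΛ
        · exact hZev x hx) (by
        intro x hx
        rw [Finset.mem_insert] at hx
        rcases hx with rfl | hx
        · exact ⟨w, hwR, hwz, a, PK1_con_mono (hCmono true) hCa, haw⟩
        · obtain ⟨y, hy, hyx, a', ha', ha'y⟩ := hZadj x hx
          exact ⟨y, hy, hyx, a', PK1_con_mono (hCmono true) ha', ha'y⟩)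
    -- splitting
    have s1 := PK1_split z Λ' hz' b (fun m => ¬ Conn (col m) false R u v)
    have s2 := PK1_split z Λ' hz' b (fun m => Conn (PK1_W (col m) Z) false R u v)
    have s3 := PK1_split z Λ' hz' b (fun m => ¬ Conn (col m) false R u v ∧
          ∃ z ∈ Z ∪ Λ, Conn (rc (col m) z false) false R u v)
    rw [hins] at s1 s2 s3
    rw [s1, s2, s3]
    -- the two colourings
    have hK : ∀ b' : V → Bool, PK1_W (col (mx (Λ' : Set V) (Function.update b z true) b')) (insert z Z) =
        PK1_W (col (mx (Λ' : Set V) (Function.update b z false) b')) Z := by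
      intro b'
      funext x
      unfold PK1_W
      by_cases h1 : br x = z
      · have h2 : z ∉ (Λ' : Set V) := hz'
        rw [h1, if_pos (Finset.mem_insert_self z Z)]
        by_cases h3 : z ∈ Z
        · rw [if_pos h3]
        · rw [if_neg h3]
          unfold col mx
          rw [h1, if_neg h2, Function.update_self]
      · by_cases h3 : br x ∈ Z
        · rw [if_pos (Finset.mem_insert_of_mem h3), if_pos h3]
        · rw [if_neg h3, if_neg (by simp [h1, h3])]
          unfold col mx
          split_ifs
          · rfl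
          · rw [Function.update_of_ne h1, Function.update_of_ne h1]
    simp only [hK] at ih0
    have hfin : ∀ F G : Set (V → Bool), F ⊆ G → Pr F ≤ Pr G := fun F G h =>
      measureReal_mono h (measure_ne_top _ _)
    have hnn : ∀ F : Set (V → Bool), 0 ≤ Pr F := fun F => measureReal_nonneg
    have m2 : Pr {b' | Conn (PK1_W (col (mx (Λ' : Set V) (Function.update b z true) b')) Z) false R u v} ≤
        Pr {b' | Conn (PK1_W (col (mx (Λ' : Set V) (Function.update b z false) b')) Z) false R u v} := by
      apply hfin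
      intro b' hb'
      have hb'' : Conn (PK1_W (col (mx (Λ' : Set V) (Function.update b z true) b')) Z) false R u v := hb'
      show Conn (PK1_W (col (mx (Λ' : Set V) (Function.update b z false) b')) Z) false R u v
      rw [← hK b']
      refine PK1_conn_mono ?_ hb''
      intro x _ hx
      unfold PK1_W at hx ⊢
      by_cases h3 : br x ∈ Z
      · rw [if_pos (Finset.mem_insert_of_mem h3)]
      · rw [if_neg h3] at hx
        split_ifs
        · rfl
        · exact hx
    have m3 : Pr {b' | ¬ Conn (col (mx (Λ' : Set V) (Function.update b z false) b')) false R u v ∧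
          ∃ x ∈ Z ∪ Λ', Conn (rc (col (mx (Λ' : Set V) (Function.update b z false) b')) x false) false R u v} ≤
        Pr {b' | ¬ Conn (col (mx (Λ' : Set V) (Function.update b z false) b')) false R u v ∧
          ∃ x ∈ Z ∪ Λ, Conn (rc (col (mx (Λ' : Set V) (Function.update b z false) b')) x false) false R u v} := by
      apply hfin
      rintro b' ⟨h1, x, hx, h2⟩
      refine ⟨h1, x, ?_, h2⟩
      rw [Finset.mem_union] at hx ⊢
      exact hx.imp_right (hsub x)
    have m4 : Pr {b' | ¬ Conn (col (mx (Λ' : Set V) (Function.update b z true) b')) false R u v ∧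
          ∃ x ∈ insert z Z ∪ Λ', Conn (rc (col (mx (Λ' : Set V) (Function.update b z true) b')) x false) false R u v} ≤
        Pr {b' | ¬ Conn (col (mx (Λ' : Set V) (Function.update b z true) b')) false R u v ∧
          ∃ x ∈ Z ∪ Λ, Conn (rc (col (mx (Λ' : Set V) (Function.update b z true) b')) x false) false R u v} := by
      apply hfin
      rintro b' ⟨h1, x, hx, h2⟩
      refine ⟨h1, x, ?_, h2⟩
      rw [Finset.mem_union, Finset.mem_insert] at hx
      rw [Finset.mem_union]
      rcases hx with (rfl | hx) | hx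
      · exact Or.inr hzΛ
      · exact Or.inl hx
      · exact Or.inr (hsub x hx)
    set A1 := Pr {b' | ¬ Conn (col (mx (Λ' : Set V) (Function.update b z true) b')) false R u v}
    set A0 := Pr {b' | ¬ Conn (col (mx (Λ' : Set V) (Function.update b z false) b')) false R u v}
    set K := Pr {b' | Conn (PK1_W (col (mx (Λ' : Set V) (Function.update b z false) b')) Z) false R u v}
    have hA1 : 0 ≤ A1 := hnn _
    have hA0 : 0 ≤ A0 := hnn _
    nlinarith [mul_le_mul_of_nonneg_left m2 (add_nonneg hA1 hA0), le_trans ih1 m3, le_trans ih0 m4]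

/-- sp:PK1. -/
theorem PK1 : PK1_stmt := by
  classical
  intro Λ R u v b hev hu
  have h := PK1_main R u v Λ.card Λ rfl b ∅ hev hu (by simp) (by simp) (by simp)
  have h1 : ∀ c : V → Bool, PK1_W c ∅ = c := by
    intro c
    funext w
    unfold PK1_W
    simp
  simp only [h1, Finset.empty_union] at h
  exact h

end TP
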