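import Pool.Agent.helper31.SP.SpecTL

/-!
# sp: monotonicity and subadditivity of the law of the spectral sample (TL0)
-/

namespace TP

open DP MeasureTheory

theorem TL0 : TL0_stmt := by
  intro F Λ
  refine ⟨?_, ?_, ?_⟩
  · intro A
    unfold PSF
    apply Finset.sum_nonneg
    intro T _
    split_ifs
    · exact sq_nonneg _
    · exact le_rfl
  · intro A B h
    unfold PSF
    apply Finset.sum_le_sum
    intro T hT
    rw [Finset.mem_powerset] at hT
    by_cases hA : A (T : Set V)
    · rw [if_pos hA, if_pos (h T hT hA)]
    · rw [if_neg hA]
      split_ifs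
      · exact sq_nonneg _
      · exact le_rfl
  · intro A B
    unfold PSF
    rw [← Finset.sum_add_distrib]
    apply Finset.sum_le_sum
    intro T _
    have h := sq_nonneg (fh F T)
    by_cases hA : A (T : Set V)
    · rw [if_pos (Or.inl hA), if_pos hA]
      split_ifs <;> linarith
    · by_cases hB : B (T : Set V)
      · rw [if_pos (Or.inr hB), if_neg hA, if_pos hB]
        linarith
      · rw [if_neg (fun h => h.elim hA hB), if_neg hA, if_neg hB]
        linarith

end TP
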