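import Pool.Agent.helper31.SP.SpecTL

/-!
# sp: geometry of the square (TL4)
-/

namespace TP

open DP MeasureTheory

theorem TL4_hh (n : ℕ) : hh n ≤ 2 * n := by
  unfold hh
  have h3 : (1 : ℝ) ≤ √3 := by
    rw [show (1 : ℝ) = √1 by simp]
    exact Real.sqrt_le_sqrt (by norm_num)
  have h1 : 2 * (n : ℝ) / √3 ≤ 2 * n := div_le_self (by positivity) h3
  have h2 : ⌊2 * (n : ℝ) / √3⌋₊ ≤ ⌊((2 * n : ℕ) : ℝ)⌋₊ := by
    apply Nat.floor_le_floor
    push_cast
    exact h1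
  rwa [Nat.floor_natCast] at h2

theorem TL4_rect (a b c d : ℤ) : (rect a b c d).Finite := by
  apply Set.Finite.subset (((Finset.Icc a b) ×ˢ (Finset.Icc c d) : Finset V).finite_toSet)
  intro v hv
  obtain ⟨h1, h2, h3, h4⟩ := hv
  simp only [Finset.coe_product, Finset.coe_Icc, Set.mem_prod, Set.mem_Icc]
  exact ⟨⟨h1, h2⟩, h3, h4⟩

theorem TL4_hcross {c c' : V → Bool} {k : Bool} {a b d e : ℤ}
    (h : ∀ v ∈ rect a b d e, c v = c' v) : hcross c k a b d e ↔ hcross c' k a b d e := by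
  unfold hcross
  constructor
  · rintro ⟨u, v, h1, h2, h3⟩
    exact ⟨u, v, h1, h2, (Conn.congr h).1 h3⟩
  · rintro ⟨u, v, h1, h2, h3⟩
    exact ⟨u, v, h1, h2, (Conn.congr h).2 h3⟩

theorem TL4_br (i : ℕ) (v : V) (hv : v ∈ rect 1 (2 * 2 ^ i) 0 (hh (2 ^ i))) : br v ∈ VV i := by
  obtain ⟨h1, h2, h3, h4⟩ := hv
  have h5 := br_even v
  have h6 := br_snd v
  have h7 := br_fst v
  simp only [VV, Finset.mem_filter, Finset.mem_product, Finset.mem_Icc]
  generalize (2 * 2 ^ i : ℤ) = N at *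
  refine ⟨⟨⟨?_, ?_⟩, ?_, ?_⟩, h5⟩
  · rcases h7 with h | h <;> omega
  · rcases h7 with h | h <;> omega
  · omega
  · omega

theorem TL4_memGB (i k t : ℕ) (x : V) : x ∈ GB i k t ↔
    ((0 ≤ x.1 ∧ x.1 ≤ 2 * 2 ^ i) ∧ 0 ≤ x.2 ∧ x.2 ≤ (hh (2 ^ i) : ℤ)) ∧
      (2 ^ (t + 1) : ℤ) ∣ x.1 ∧ (2 ^ (t + 1) : ℤ) ∣ x.2 ∧ Bulk i k x := by
  classical
  unfold GB
  simp only [Finset.mem_filter, Finset.mem_product, Finset.mem_Icc]

theorem TL4 : TL4_stmt := by
  refine ⟨?_, ?_, ?_, ?_, ?_⟩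
  · intro i b b' hb
    show hcross (col b) true _ _ _ _ ↔ hcross (col b') true _ _ _ _
    apply TL4_hcross
    intro v hv
    exact hb (br v) (by exact_mod_cast TL4_br i v hv)
  · intro i
    exact (Loc.ev (TL4_rect 1 (2 * 2 ^ i) 0 (hh (2 ^ i))) (fun c c' h => TL4_hcross h)).mono
      (Set.subset_univ _)
  · intro i
    have h1 : (VV i).card ≤ (2 * 2 ^ i + 1) * (2 * 2 ^ i + 1) := by
      unfold VV
      refine (Finset.card_filter_le _ _).trans ?_
      rw [Finset.card_product, Int.card_Icc, Int.card_Icc]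
      apply Nat.mul_le_mul
      · have : (2 * 2 ^ i + 1 - 0 : ℤ) = ((2 * 2 ^ i + 1 : ℕ) : ℤ) := by push_cast; ring
        rw [this, Int.toNat_natCast]
      · have : ((hh (2 ^ i) : ℤ) + 1 - 0 : ℤ) = ((hh (2 ^ i) + 1 : ℕ) : ℤ) := by push_cast; ring
        rw [this, Int.toNat_natCast]
        have := TL4_hh (2 ^ i)
        omega
    have h2 : ((VV i).card : ℝ) ≤ (2 * 2 ^ i + 1) * (2 * 2 ^ i + 1) := by exact_mod_cast h1
    have h3 : (1 : ℝ) ≤ 2 ^ i := one_le_pow₀ (by norm_num)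
    have h4 : (4 : ℝ) ^ i = 2 ^ i * 2 ^ i := by
      rw [← mul_pow]; norm_num
    rw [h4]
    nlinarith
  · intro i k e he
    have h1 : (GB i k (i - e)).card ≤ (2 ^ e + 1) * (2 ^ e + 1) := by
      have hM : (0 : ℤ) < 2 ^ (i - e + 1) := by positivity
      have hM2 : (2 : ℤ) * 2 ^ i = 2 ^ (i - e + 1) * 2 ^ e := by
        rw [← pow_add, ← pow_succ']
        congr 1
        omega
      set M : ℤ := 2 ^ (i - e + 1) with hMdef
      have h2 : ((Finset.Icc (0 : ℤ) (2 ^ e)) ×ˢ (Finset.Icc (0 : ℤ) (2 ^ e))).card =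
          (2 ^ e + 1) * (2 ^ e + 1) := by
        rw [Finset.card_product, Int.card_Icc]
        have : (2 ^ e + 1 - 0 : ℤ) = ((2 ^ e + 1 : ℕ) : ℤ) := by push_cast; ring
        rw [this, Int.toNat_natCast]
      rw [← h2]
      apply Finset.card_le_card_of_injOn (fun v => (v.1 / M, v.2 / M))
      · intro v hv
        rw [Finset.mem_coe, TL4_memGB] at hv
        obtain ⟨⟨⟨a1, a2⟩, a3, a4⟩, -, -, -⟩ := hv
        rw [Finset.mem_coe, Finset.mem_product, Finset.mem_Icc, Finset.mem_Icc]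
        have h5 := TL4_hh (2 ^ i)
        have h6 : (hh (2 ^ i) : ℤ) ≤ 2 * 2 ^ i := by exact_mod_cast h5
        refine ⟨⟨Int.ediv_nonneg a1 hM.le, ?_⟩, Int.ediv_nonneg a3 hM.le, ?_⟩
        · apply Int.ediv_le_of_le_mul hM
          rw [mul_comm, ← hM2]; exact a2
        · apply Int.ediv_le_of_le_mul hM
          rw [mul_comm, ← hM2]; exact a4.trans h6
      · intro v hv w hw h
        rw [Finset.mem_coe, TL4_memGB] at hv hw
        obtain ⟨-, d1, d2, -⟩ := hv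
        obtain ⟨-, d3, d4, -⟩ := hw
        rw [← hMdef] at d1 d2 d3 d4
        have e1 : v.1 / M = w.1 / M := congrArg Prod.fst h
        have e2 : v.2 / M = w.2 / M := congrArg Prod.snd h
        apply Prod.ext
        · rw [← Int.ediv_mul_cancel d1, ← Int.ediv_mul_cancel d3, e1]
        · rw [← Int.ediv_mul_cancel d2, ← Int.ediv_mul_cancel d4, e2]
    have h2 : ((GB i k (i - e)).card : ℝ) ≤ (2 ^ e + 1) * (2 ^ e + 1) := by exact_mod_cast h1
    have h3 : (1 : ℝ) ≤ 2 ^ e := one_le_pow₀ (by norm_num)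
    have h4 : (4 : ℝ) ^ e = 2 ^ e * 2 ^ e := by
      rw [← mul_pow]; norm_num
    rw [h4]
    nlinarith
  · intro i k t v htk hv
    have hm0 : (0 : ℤ) < 2 ^ t := by positivity
    have hM : (2 : ℤ) ^ (t + 1) = 2 * 2 ^ t := by rw [pow_succ']
    set x : V := (2 ^ (t + 1) * ((v.1 + 2 ^ t) / 2 ^ (t + 1)),
      2 ^ (t + 1) * ((v.2 + 2 ^ t) / 2 ^ (t + 1))) with hx
    have key : ∀ a : ℤ, (2 ^ (t + 1) * ((a + 2 ^ t) / 2 ^ (t + 1)) - a).natAbs ≤ 2 ^ t := by
      intro a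
      have h1 := Int.mul_ediv_self_le (x := a + 2 ^ t) (k := 2 ^ (t + 1)) (by positivity)
      have h2 := Int.lt_mul_ediv_self_add (x := a + 2 ^ t) (k := 2 ^ (t + 1)) (by positivity)
      generalize (2 : ℤ) ^ (t + 1) * ((a + 2 ^ t) / 2 ^ (t + 1)) = q at *
      rw [hM] at h2
      have h3 : ((2 ^ t : ℕ) : ℤ) = 2 ^ t := by push_cast; ring
      rw [← h3] at h1 h2
      generalize (2 : ℕ) ^ t = m at *
      omega
    have hsd : sd x v ≤ 2 ^ t := by
      unfold sd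
      exact max_le (key v.1) (key v.2)
    have hxv : x ∈ box v (2 ^ (i - k)) := by
      show sd v x ≤ _
      rw [sd_comm]
      exact hsd.trans (Nat.pow_le_pow_right (by norm_num) (by omega))
    have hxr := hv hxv
    refine ⟨x, ?_, hsd⟩
    rw [TL4_memGB]
    obtain ⟨r1, r2, r3, r4⟩ := hxr
    refine ⟨⟨⟨by omega, r2⟩, r3, r4⟩, Dvd.intro _ rfl, Dvd.intro _ rfl, ?_⟩
    intro w hw
    apply hv
    show sd v w ≤ _
    have h1 := sd_triangle v x w
    have h2 : sd x w ≤ 2 ^ (i - (k + 1)) := hw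
    rw [sd_comm] at hsd
    have h3 : 2 ^ (i - k) = 2 * 2 ^ (i - (k + 1)) := by
      rw [← pow_succ']
      congr 1
      omega
    have h4 : 2 ^ t ≤ 2 ^ (i - (k + 1)) := Nat.pow_le_pow_right (by norm_num) (by omega)
    omega

end TP
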